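import Pool.Agent.Helper80.Stack.Goals

set_option autoImplicit false

namespace Helper35.Stk

open Classical Pool.Agent.Helper80.Stk

noncomputable section

variable {V D : Type} [Fintype D] {P : PMap V D}

lemma te_cases {u v : TW P} {t t' : D × Fin 3} (h : TE P u v t t') :
    ∃ d : D, (u = wV P (P.o d) ∧ v = wV P (P.o (P.α d))) ∨
      (u = wV P (P.o d) ∧ v = wD P d) ∨ (u = wV P (P.o d) ∧ v = wD P (P.φ d)) ∨
      (u = wD P d ∧ v = wD P (P.φ d)) ∨ (u = wD P d ∧ v = wF P d) := by
  cases h with
  | main d => exact ⟨d, Or.inl ⟨rfl, rfl⟩⟩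
  | spoke d => exact ⟨d, Or.inr (Or.inl ⟨rfl, rfl⟩)⟩
  | diag d => exact ⟨d, Or.inr (Or.inr (Or.inl ⟨rfl, rfl⟩))⟩
  | ring d => exact ⟨d, Or.inr (Or.inr (Or.inr (Or.inl ⟨rfl, rfl⟩)))⟩
  | inner d => exact ⟨d, Or.inr (Or.inr (Or.inr (Or.inr ⟨rfl, rfl⟩)))⟩

lemma o_ne_symm (P : PMap V D) (d : D) : P.o (P.φ.symm d) ≠ P.o d := by
  intro h
  have h1 := P.oφ (P.φ.symm d)
  rw [Equiv.apply_symm_apply] at h1
  exact P.noloop (P.φ.symm d) (by rw [← h1, h])

lemma φ_ne_symm (P : PMap V D) (d : D) : P.φ d ≠ P.φ.symm d := by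
  intro h
  apply P.φφ d
  rw [h, Equiv.apply_symm_apply]

theorem pf_TriDeg (hE : StmtTriEdges) : StmtTriDeg := by
  intro V D _ _ P C hsym hdiag hsupp heven
  obtain ⟨-, -, h3⟩ := hE V D P
  have cls : ∀ u v : TW P, C u v ≠ 0 → ∃ d : D,
      ((u = wV P (P.o d) ∧ v = wV P (P.o (P.α d))) ∨
      (u = wV P (P.o d) ∧ v = wD P d) ∨ (u = wV P (P.o d) ∧ v = wD P (P.φ d)) ∨
      (u = wD P d ∧ v = wD P (P.φ d)) ∨ (u = wD P d ∧ v = wF P d)) ∨
      ((v = wV P (P.o d) ∧ u = wV P (P.o (P.α d))) ∨
      (v = wV P (P.o d) ∧ u = wD P d) ∨ (v = wV P (P.o d) ∧ u = wD P (P.φ d)) ∨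
      (v = wD P d ∧ u = wD P (P.φ d)) ∨ (v = wD P d ∧ u = wF P d)) := by
    intro u v huv
    have hne : u ≠ v := by
      rintro rfl
      exact huv (hdiag u)
    obtain ⟨s, hs1, hs2⟩ := hsupp u v huv
    obtain ⟨t, t', h | h⟩ := h3 u v s hne hs1 hs2
    · obtain ⟨d, hd⟩ := te_cases h
      exact ⟨d, Or.inl hd⟩
    · obtain ⟨d, hd⟩ := te_cases h
      exact ⟨d, Or.inr hd⟩
  -- the kinds of pairs
  have cVV : ∀ v w : V, C (wV P v) (wV P w) ≠ 0 → ∃ d, P.o d = v ∧ P.o (P.α d) = w := by
    intro v w h
    obtain ⟨d, hd⟩ := cls _ _ h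
    simp only [wV, wD, wF, Sum.inl.injEq, Sum.inr.injEq, reduceCtorEq, and_false, false_and,
      or_false, false_or] at hd
    rcases hd with ⟨h1, h2⟩ | ⟨h1, h2⟩
    · exact ⟨d, h1.symm, h2.symm⟩
    · exact ⟨P.α d, h2.symm, by rw [P.αα, h1]⟩
  have cVF : ∀ (v : V) (f : Fc P), C (wV P v) (Sum.inr (Sum.inr f)) = 0 := by
    intro v f
    by_contra h
    obtain ⟨d, hd⟩ := cls _ _ h
    simp only [wV, wD, wF, Sum.inl.injEq, Sum.inr.injEq, reduceCtorEq, and_false, false_and,
      or_false, false_or] at hd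
  have cVD : ∀ (v : V) (d : D), C (wV P v) (wD P d) ≠ 0 → P.o d = v ∨ P.o (P.φ.symm d) = v := by
    intro v e h
    obtain ⟨d, hd⟩ := cls _ _ h
    simp only [wV, wD, wF, Sum.inl.injEq, Sum.inr.injEq, reduceCtorEq, and_false, false_and,
      or_false, false_or] at hd
    rcases hd with ⟨h1, h2⟩ | ⟨h1, h2⟩
    · left; rw [h2, h1]
    · right; rw [h2, h1, Equiv.symm_apply_apply]
  have cDD : ∀ (d d' : D), C (wD P d) (wD P d') ≠ 0 → d' = P.φ d ∨ d' = P.φ.symm d := by
    intro e e' h
    obtain ⟨d, hd⟩ := cls _ _ h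
    simp only [wV, wD, wF, Sum.inl.injEq, Sum.inr.injEq, reduceCtorEq, and_false, false_and,
      or_false, false_or] at hd
    rcases hd with ⟨h1, h2⟩ | ⟨h1, h2⟩
    · left; rw [h2, h1]
    · right; rw [h2, h1, Equiv.symm_apply_apply]
  have cDF : ∀ (d : D) (f : Fc P), C (wD P d) (Sum.inr (Sum.inr f)) ≠ 0 →
      f = Quotient.mk _ d := by
    intro e f h
    obtain ⟨d, hd⟩ := cls _ _ h
    simp only [wV, wD, wF, Sum.inl.injEq, Sum.inr.injEq, reduceCtorEq, and_false, false_and,
      or_false, false_or] at hd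
    rw [hd.1, hd.2]
  have cFF : ∀ (f g : Fc P), C (Sum.inr (Sum.inr f)) (Sum.inr (Sum.inr g)) = 0 := by
    intro f g
    by_contra h
    obtain ⟨d, hd⟩ := cls _ _ h
    simp only [wV, wD, wF, Sum.inl.injEq, Sum.inr.injEq, reduceCtorEq, and_false, false_and,
      or_false, false_or] at hd
  refine ⟨?_, ?_, ?_⟩
  · intro v
    have h0 := heven (wV P v)
    rw [Fintype.sum_sum_type, Fintype.sum_sum_type] at h0
    have s3 : ∑ f : Fc P, C (wV P v) (Sum.inr (Sum.inr f)) = 0 :=
      Finset.sum_eq_zero fun f _ => cVF v f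
    have s1 : ∑ d : D, (if P.o d = v then C (wV P (P.o d)) (wV P (P.o (P.α d))) else 0) =
        ∑ w : V, C (wV P v) (wV P w) := by
      rw [← Finset.sum_filter]
      apply Finset.sum_of_injOn (fun d => P.o (P.α d))
      · intro d hd d' hd' h
        simp only [Finset.coe_filter, Finset.mem_univ, true_and, Set.mem_ofPred_eq] at hd hd'
        exact P.simple d d' (by rw [hd, hd']) h
      · intro d _
        simp
      · intro w _ hw
        by_contra h
        obtain ⟨d, h1, h2⟩ := cVV v w h
        apply hw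
        exact ⟨d, by simpa using h1, h2⟩
      · intro d hd
        simp only [Finset.mem_filter, Finset.mem_univ, true_and] at hd
        rw [hd]
    have s2 : ∑ d : D, C (wV P v) (wD P d) =
        ∑ d : D, (if P.o d = v then C (wV P (P.o d)) (wD P d) else 0) +
        ∑ d : D, (if P.o d = v then C (wV P (P.o d)) (wD P (P.φ d)) else 0) := by
      have e1 : ∑ d : D, (if P.o d = v then C (wV P (P.o d)) (wD P (P.φ d)) else 0) =
          ∑ d : D, (if P.o (P.φ.symm d) = v then C (wV P v) (wD P d) else 0) := by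
        rw [← Equiv.sum_comp P.φ
          (fun d => (if P.o (P.φ.symm d) = v then C (wV P v) (wD P d) else 0))]
        apply Finset.sum_congr rfl
        intro d _
        rw [Equiv.symm_apply_apply]
        by_cases h : P.o d = v
        · rw [if_pos h, if_pos h, h]
        · rw [if_neg h, if_neg h]
      rw [e1, ← Finset.sum_add_distrib]
      apply Finset.sum_congr rfl
      intro d _
      by_cases h : P.o d = v
      · have h' : ¬ P.o (P.φ.symm d) = v := by rw [← h]; exact o_ne_symm P d
        rw [if_pos h, if_neg h', h, add_zero]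
      · rw [if_neg h, zero_add]
        by_cases h' : P.o (P.φ.symm d) = v
        · rw [if_pos h']
        · rw [if_neg h']
          by_contra hC
          rcases cVD v d hC with h1 | h1
          · exact h h1
          · exact h' h1
    refine Eq.trans ?_ h0
    have : (∑ d : D, (if P.o d = v then C (wV P (P.o d)) (wV P (P.o (P.α d))) +
      C (wV P (P.o d)) (wD P d) + C (wV P (P.o d)) (wD P (P.φ d)) else 0)) =
      ∑ d : D, (if P.o d = v then C (wV P (P.o d)) (wV P (P.o (P.α d))) else 0) +
      (∑ d : D, (if P.o d = v then C (wV P (P.o d)) (wD P d) else 0) +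
        ∑ d : D, (if P.o d = v then C (wV P (P.o d)) (wD P (P.φ d)) else 0)) := by
      rw [← Finset.sum_add_distrib, ← Finset.sum_add_distrib]
      apply Finset.sum_congr rfl
      intro d _
      by_cases h : P.o d = v
      · simp only [if_pos h]; ring
      · simp only [if_neg h]; ring
    rw [this, s1, ← s2, s3, add_zero]
  · intro d
    have h0 := heven (wD P d)
    rw [Fintype.sum_sum_type, Fintype.sum_sum_type] at h0
    have s1 : ∑ v : V, C (wD P d) (Sum.inl v) =
        C (wV P (P.o d)) (wD P d) + C (wV P (P.o (P.φ.symm d))) (wD P d) := by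
      have : ∀ v : V, C (wD P d) (Sum.inl v) =
          (if v = P.o d then C (wD P d) (wV P v) else 0) +
          (if v = P.o (P.φ.symm d) then C (wD P d) (wV P v) else 0) := by
        intro v
        by_cases h : v = P.o d
        · have h' : ¬ v = P.o (P.φ.symm d) := by rw [h]; exact (o_ne_symm P d).symm
          rw [if_pos h, if_neg h', add_zero]
        · rw [if_neg h, zero_add]
          by_cases h' : v = P.o (P.φ.symm d)
          · rw [if_pos h']
          · rw [if_neg h']
            by_contra hC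
            rw [hsym] at hC
            rcases cVD v d hC with h1 | h1
            · exact h h1.symm
            · exact h' h1.symm
      rw [Finset.sum_congr rfl (fun v _ => this v), Finset.sum_add_distrib,
        Finset.sum_ite_eq', Finset.sum_ite_eq']
      simp only [Finset.mem_univ, if_true]
      rw [hsym (wD P d), hsym (wD P d)]
    have s2 : ∑ d' : D, C (wD P d) (Sum.inr (Sum.inl d')) =
        C (wD P d) (wD P (P.φ d)) + C (wD P (P.φ.symm d)) (wD P d) := by
      have : ∀ d' : D, C (wD P d) (Sum.inr (Sum.inl d')) =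
          (if d' = P.φ d then C (wD P d) (wD P d') else 0) +
          (if d' = P.φ.symm d then C (wD P d) (wD P d') else 0) := by
        intro d'
        by_cases h : d' = P.φ d
        · have h' : ¬ d' = P.φ.symm d := by rw [h]; exact φ_ne_symm P d
          rw [if_pos h, if_neg h', add_zero]
        · rw [if_neg h, zero_add]
          by_cases h' : d' = P.φ.symm d
          · rw [if_pos h']
          · rw [if_neg h']
            by_contra hC
            rcases cDD d d' hC with h1 | h1
            · exact h h1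
            · exact h' h1
      rw [Finset.sum_congr rfl (fun v _ => this v), Finset.sum_add_distrib,
        Finset.sum_ite_eq', Finset.sum_ite_eq']
      simp only [Finset.mem_univ, if_true]
      rw [hsym (wD P d) (wD P (P.φ.symm d))]
    have s3 : ∑ f : Fc P, C (wD P d) (Sum.inr (Sum.inr f)) = C (wD P d) (wF P d) := by
      have : ∀ f : Fc P, C (wD P d) (Sum.inr (Sum.inr f)) =
          (if f = Quotient.mk _ d then C (wD P d) (Sum.inr (Sum.inr f)) else 0) := by
        intro f
        by_cases h : f = Quotient.mk _ d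
        · rw [if_pos h]
        · rw [if_neg h]
          by_contra hC
          exact h (cDF d f hC)
      rw [Finset.sum_congr rfl (fun v _ => this v), Finset.sum_ite_eq']
      simp only [Finset.mem_univ, if_true]
    rw [s1, s2, s3] at h0
    refine Eq.trans ?_ h0
    ring
  · intro d
    have h0 := heven (wF P d)
    rw [Fintype.sum_sum_type, Fintype.sum_sum_type] at h0
    have s1 : ∑ v : V, C (wF P d) (Sum.inl v) = 0 :=
      Finset.sum_eq_zero fun v _ => by rw [hsym]; exact cVF v _
    have s3 : ∑ f : Fc P, C (wF P d) (Sum.inr (Sum.inr f)) = 0 :=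
      Finset.sum_eq_zero fun f _ => cFF _ f
    rw [s1, s3, zero_add, add_zero] at h0
    refine Eq.trans ?_ h0
    apply Finset.sum_congr rfl
    intro d' _
    by_cases h : P.φ.SameCycle d d'
    · rw [if_pos h]
      have : wF P d' = wF P d := by
        simp only [wF, Sum.inr.injEq]
        exact Quotient.sound h.symm
      rw [this, hsym]
    · rw [if_neg h]
      by_contra hC
      apply h
      have h1 : C (wD P d') (Sum.inr (Sum.inr (Quotient.mk _ d))) ≠ 0 := by
        rw [hsym]
        exact fun h' => hC h'.symm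
      have := cDF d' _ h1
      exact Quotient.exact this

end

end Helper35.Stk
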